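import Mathlib
import Pool.Agent.H89.PacA

set_option autoImplicit false

namespace Pool.Agent.Results.MP_ab635e_lc.Hull

open MeasureTheory Set Filter Topology Pool.Agent.H89.Pac
open scoped NNReal ENNReal unitInterval

variable {X : Type*} [MeasurableSpace X]

def Near (P Q : Measure X) (ε : ℝ) : Prop := ∀ A, MeasurableSet A → |P.real A - Q.real A| ≤ ε

def TotBdd (Fam : Set (Measure X)) : Prop :=
  ∀ ε > 0, ∃ T : Set (Measure X), T.Finite ∧ (∀ Q ∈ T, IsProbabilityMeasure Q) ∧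
    ∀ P ∈ Fam, ∃ Q ∈ T, Near P Q ε

def hull (Fam : Set (Measure X)) : Set (Measure X) :=
  {Q | ∃ (l : ℕ) (c : Fin l → ℝ≥0) (P : Fin l → Measure X),
    (∀ i, P i ∈ Fam) ∧ ∑ i, c i = 1 ∧ Q = ∑ i, c i • P i}

def cl (Fam : Set (Measure X)) : Set (Measure X) :=
  {Q | IsProbabilityMeasure Q ∧ ∀ ε > 0, ∃ P ∈ Fam, Near Q P ε}

noncomputable def d (P : Measure X) (f g : X → I) : ℝ := ∫ x, |(f x : ℝ) - g x| ∂P

def PAC (Fam : Set (Measure X)) (F : Set (X → I)) : Prop :=
  ∃ A : (m : ℕ) → (Fin m → X × I) → F, ∀ ε > 0,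
    Tendsto (fun m => ⨆ P ∈ Fam, ⨆ f : F, Measure.pi (fun _ : Fin m => P)
      {x | ε < d P f (A m fun i => (x i, f.1 (x i)))}) atTop (𝓝 0)

lemma reps {α β : Type*} (S : Set α) (c : α → β) (h : (c '' S).Finite) :
    ∃ (n : ℕ) (r : Fin n → α), (∀ j, r j ∈ S) ∧ ∀ a ∈ S, ∃ j, c (r j) = c a := by
  obtain ⟨n, f, -, hf⟩ := h.fin_param
  have : ∀ j, ∃ a ∈ S, c a = f j := fun j => by
    have : f j ∈ c '' S := hf ▸ mem_range_self j
    exact this
  choose r h1 h2 using this
  refine ⟨n, r, h1, fun a ha => ?_⟩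
  obtain ⟨j, hj⟩ : c a ∈ range f := hf ▸ mem_image_of_mem c ha
  exact ⟨j, (h2 j).trans hj⟩

lemma real_sum {K : Type*} [Fintype K] (l : K → ℝ≥0) (P : K → Measure X)
    [∀ i, IsFiniteMeasure (P i)] (A : Set X) :
    (∑ i, l i • P i).real A = ∑ i, l i * (P i).real A := by
  rw [measureReal_def, Measure.finsetSum_apply, ENNReal.toReal_sum fun _ _ => measure_ne_top _ _]
  simp [measureReal_def]

variable {Fam : Set (Measure X)}

lemma mix (hp : ∀ P ∈ Fam, IsProbabilityMeasure P) (h : TotBdd Fam) {η : ℝ} (hη : 0 < η) :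
    ∃ (k : ℕ) (P : Fin k → Measure X), (∀ i, P i ∈ Fam) ∧ ∀ Q ∈ cl (hull Fam),
      ∃ l : Fin k → ℝ≥0, ∑ i, l i = 1 ∧ Le (∑ i, l i • P i) Q η := by
  obtain ⟨T, hT, -, h⟩ := h (η / 3) (by positivity)
  choose! c h1 h2 using h
  obtain ⟨k, P, h3, h4⟩ := reps Fam c (hT.subset (image_subset_iff.mpr h1))
  refine ⟨k, P, h3, fun Q hQ => ?_⟩
  obtain ⟨_, ⟨n, a, R, h5, h6, rfl⟩, h7⟩ := hQ.2 (η / 3) (by positivity)
  choose j hj using fun i => h4 _ (h5 i)
  have := fun i => hp _ (h3 i)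
  have := fun i => hp _ (h5 i)
  refine ⟨fun i => ∑ b with j b = i, a b, (Finset.sum_fiberwise _ _ _).trans h6, fun A hA => ?_⟩
  have e := h7 A hA
  rw [real_sum] at e ⊢
  have a1 : ∑ i, (a i : ℝ) = 1 := by exact_mod_cast h6
  have e2 : ∑ b, a b * (P (j b)).real A ≤ ∑ b, a b * ((R b).real A + 2 * η / 3) :=
    Finset.sum_le_sum fun b _ => mul_le_mul_of_nonneg_left (by
      have k1 := h2 _ (h5 b) A hA
      have k2 := h2 _ (h3 (j b)) A hA
      rw [hj] at k2
      linarith [(abs_le.mp k1).1, (abs_le.mp k2).2]) (a b).2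
  simp only [mul_add, Finset.sum_add_distrib, ← Finset.sum_mul, a1] at e2
  rw [← Finset.sum_fiberwise _ j] at e2
  simp only [NNReal.coe_sum, Finset.sum_mul]
  refine le_trans (le_of_eq (Finset.sum_congr rfl fun i _ => Finset.sum_congr rfl fun b hb => ?_))
    (e2.trans (by linarith [(abs_le.mp e).1]))
  rw [(Finset.mem_filter.mp hb).2]

lemma net (hp : ∀ P ∈ Fam, IsProbabilityMeasure P) (h : TotBdd Fam) {η : ℝ} (hη : 0 < η) :
    ∃ (n : ℕ) (R : Fin n → Measure X), (∀ j, R j ∈ cl (hull Fam)) ∧ ∀ Q ∈ cl (hull Fam),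
      ∃ j, Le Q (R j) η := by
  obtain ⟨k, P, h1, h2⟩ := mix hp h (η := η / 3) (by positivity)
  have := fun i => hp _ (h1 i)
  choose! l h3 h4 using h2
  set M := 3 * (k + 1) / η with hM
  have M0 : 0 < M := by positivity
  obtain ⟨n, R, h5, h6⟩ := reps (cl (hull Fam)) (fun Q i => ⌊l Q i * M⌋₊)
    ((finite_Iic fun _ => ⌊M⌋₊).subset (image_subset_iff.mpr fun Q hQ i =>
      Nat.floor_mono (mul_le_of_le_one_left M0.le (by
        exact_mod_cast (Finset.single_le_sum (fun _ _ => zero_le) (Finset.mem_univ i)).trans_eq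
          (h3 Q hQ)))))
  refine ⟨n, R, h5, fun Q hQ => (h6 Q hQ).imp fun j hj A hA => ?_⟩
  have := hQ.1
  have : IsProbabilityMeasure (∑ i, l Q i • P i) := ⟨by
    simp [Measure.finsetSum_apply, ← ENNReal.ofNNReal_finsetSum, h3 Q hQ]⟩
  have a := (h4 Q hQ).symm A hA
  have b := h4 _ (h5 j) A hA
  rw [real_sum] at a b
  have c : ∑ i, l Q i * (P i).real A ≤ ∑ i, (l (R j) i * (P i).real A + 1 / M) :=
    Finset.sum_le_sum fun i _ => by
      have k1 := Nat.lt_floor_add_one (l Q i * M)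
      have k2 := Nat.floor_le (mul_nonneg (l (R j) i).coe_nonneg M0.le)
      rw [← show ⌊l (R j) i * M⌋₊ = ⌊l Q i * M⌋₊ from congrFun hj i] at k1
      have k3 : (l Q i : ℝ) ≤ l (R j) i + 1 / M := by
        rw [← sub_le_iff_le_add', le_div_iff₀ M0, sub_mul]; exact le_of_lt (by linarith)
      have p0 : 0 ≤ (P i).real A := measureReal_nonneg
      have p1 := mul_le_of_le_one_right (one_div_pos.mpr M0).le (measureReal_le_one (μ := P i) (s := A))
      nlinarith
  have e : (k : ℝ) * (1 / M) ≤ η / 3 := by rw [hM]; field_simp; linarith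
  simp only [Finset.sum_add_distrib, Finset.sum_const, Finset.card_univ, Fintype.card_fin,
    nsmul_eq_mul] at c
  linarith

lemma b01 {f g : X → I} (hf : Measurable f) (hg : Measurable g) : B01 fun x => |(f x : ℝ) - g x| :=
  ⟨by fun_prop, fun x => ⟨abs_nonneg _, abs_le.mpr
    ⟨by linarith [(f x).2.1, (g x).2.2], by linarith [(f x).2.2, (g x).2.1]⟩⟩⟩

lemma tri (P : Measure X) [IsFiniteMeasure P] {f g h : X → I} (hf : Measurable f)
    (hg : Measurable g) (hh : Measurable h) : d P f g ≤ d P f h + d P g h := by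
  rw [d, d, d, ← integral_add ((b01 hf hh).int P) ((b01 hg hh).int P)]
  exact integral_mono ((b01 hf hg).int P) (((b01 hf hh).int P).add ((b01 hg hh).int P)) fun x =>
    abs_sub_le _ _ _ |>.trans (by rw [abs_sub_comm (h x : ℝ)])

lemma stage (hp : ∀ P ∈ Fam, IsProbabilityMeasure P) (h : TotBdd Fam) {F : Set (X → I)}
    (hF : ∀ f ∈ F, Measurable f) (H : PAC Fam F) (δ : ℝ≥0) (hδ : 0 < δ) (δ1 : δ ≤ 1) :
    ∃ A : (m : ℕ) → (Fin m → X × I) → F, ∀ᶠ m in atTop, ∀ Q ∈ cl (hull Fam), ∀ f : F,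
      pw m Q {x | 6 * δ < d Q f (A m fun i => (x i, f.1 (x i)))} ≤ ENNReal.ofReal δ := by
  classical
  obtain ⟨A, H⟩ := H
  have d0 : (0 : ℝ) < δ := hδ
  have d1 : (δ : ℝ) ≤ 1 := δ1
  obtain ⟨s, hs, s0⟩ := (((H δ hδ).eventually (eventually_le_nhds
    (show (0 : ℝ≥0∞) < ENNReal.ofReal (1 / 8) by simp))).and (eventually_gt_atTop 0)).exists
  simp only [iSup_le_iff] at hs
  have s1 : (1 : ℝ) ≤ s := by exact_mod_cast s0
  obtain ⟨k, P, hP, h2⟩ := mix hp h (η := δ / (16 * s)) (by positivity)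
  have := fun i => hp _ (hP i)
  rcases k with _ | k
  · exact ⟨A, Eventually.of_forall fun m Q hQ => by simpa using h2 Q hQ⟩
  set κ : ℝ := (δ / (2 * Fintype.card (Fin (k + 1)))) ^ s with hκ
  have κ0 : 0 < κ := by positivity
  have κ1 : κ ≤ δ := (pow_le_of_le_one (by positivity) (div_le_one_of_le₀ (by
    simp; linarith [(Nat.cast_nonneg k : (0 : ℝ) ≤ k)]) (by positivity)) s0.ne').trans
    (div_le_self d0.le (by simp; linarith [(Nat.cast_nonneg k : (0 : ℝ) ≤ k)]))
  set τ := κ / (40 * s)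
  have τ0 : 0 < τ := by positivity
  have τ1 : s * (5 * τ) = κ / 8 := by simp only [τ]; field_simp; norm_num
  have τ2 : 40 * τ ≤ κ := by nlinarith
  obtain ⟨n, R, hR, h3⟩ := net hp h τ0
  have := fun j => (hR j).1
  choose l hl h4 using fun j => h2 _ (hR j)
  choose J w w1 w2 w3 w4 using fun j => weights P s s0 δ (R j) (l j) (hl j) (h4 j)
  choose Y mY Y1 Y2 using fun p : Fin n × Fin n => hahn_decomposition (R p.1) (R p.2)
  let e : ∀ m, Fin (m / s) × Fin s → Fin m := fun m p =>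
    Fin.castLE (Nat.div_mul_le_self m s) (finProdFinEquiv p)
  let u : Fin n × Fin n → (Fin s → X) → ℝ := fun p => ((fun y => y ⟨0, s0⟩) ⁻¹' Y p).indicator 1
  let T : ∀ N, (Fin N → Fin s → X × I) → F → Prop := fun N z g => ∃ j,
    (∀ p, |∑ b, u p (fun i => (z b i).1) - N * (R j).real (Y p)| ≤ N * (2 * τ)) ∧
    ∀ i ∈ J j, 2 * ∑ b, (if δ < d (P i) g (A s (z b)) then w j i fun i => (z b i).1 else 0) <
      ∑ b, w j i fun i => (z b i).1
  refine ⟨fun m z => if c : ∃ g, T _ (fun b i => z (e m (b, i))) g then c.choose else A m z, ?_⟩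
  filter_upwards [(Nat.tendsto_div_const_atTop s0.ne').eventually ((lln (X := Fin s → X)
    ((Fin n × Fin n) ⊕ (Fin n × Fin (k + 1)) ⊕ (Fin n × Fin (k + 1))) τ0 d0).and
    (eventually_gt_atTop 0))] with m ⟨hm, N0⟩ Q hQ f
  have := hQ.1
  let B := fun i => toMeasurable (pw s (P i)) {x | δ < d (P i) f (A s fun i => (x i, f.1 (x i)))}
  have mu : ∀ p, MeasurableSet ((fun y : Fin s → X => y ⟨0, s0⟩) ⁻¹' Y p) := fun p =>
    measurable_pi_apply _ (mY p)
  refine le_trans (measure_mono fun x hx => ?_) (((blocks Q (e m) ((Fin.castLE_injective _).comp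
    finProdFinEquiv.injective)).measure_preimage_le _).trans (hm (pw s Q) (Sum.elim u (Sum.elim
    (fun p => w p.1 p.2) fun p => (B p.2).indicator (w p.1 p.2))) (by
      rintro (p | p | p)
      exacts [B01.ind ⟨measurable_const, fun _ => ⟨zero_le_one, le_rfl⟩⟩ (mu p), w1 _ _,
        (w1 _ _).ind (measurableSet_toMeasurable _ _)])))
  by_contra c
  simp only [mem_preimage, mem_ofPred_eq, not_exists, not_le, Sum.forall, Sum.elim_inl,
    Sum.elim_inr, Prod.forall, abs_lt] at c hx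
  obtain ⟨c1, c2, c3⟩ := c
  set N := m / s
  have N1 : (0 : ℝ) < N := by exact_mod_cast N0
  set z : Fin N → Fin s → X × I := fun b i => (x (e m (b, i)), f.1 (x (e m (b, i))))
  have eu : ∀ p, ∫ y, u p y ∂pw s Q = Q.real (Y p) := fun p => by
    rw [integral_indicator_one (mu p), (measurePreserving_eval (fun _ : Fin s => Q) _).measureReal_preimage
      (mY p).nullMeasurableSet]
  have ok : ∀ j, Le Q (R j) (5 * τ) → ∀ i ∈ J j, 2 * ∑ b, (if δ < d (P i) f (A s (z b)) then
      w j i fun i => (z b i).1 else 0) < ∑ b, w j i fun i => (z b i).1 := fun j hj i hi => by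
    have a1 := tvs s hj (by linarith) ((w1 j i).ind (measurableSet_toMeasurable (pw s (P i)) _ :
      MeasurableSet (B i)))
    have a2 := tvs s hj.symm (by linarith) (w1 j i)
    have a3 := w2 j i hi (B i) (measurableSet_toMeasurable _ _)
    have a4 : (pw s (P i)).real (B i) ≤ 1 / 8 := ENNReal.toReal_le_of_le_ofReal (by norm_num)
      ((measure_toMeasurable _).trans_le (hs _ (hP i) f))
    have a5 := w3 j i hi
    have a6 : ∑ b, (if δ < d (P i) f (A s (z b)) then w j i fun i => (z b i).1 else 0) ≤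
        ∑ b, (B i).indicator (w j i) fun i => x (e m (b, i)) := Finset.sum_le_sum fun b _ => by
      split_ifs with c
      · exact (indicator_of_mem (subset_toMeasurable _ _ (by exact c)) _).ge
      · exact (((w1 j i).ind (measurableSet_toMeasurable _ _)).2 _).1
    have a7 := mul_le_mul_of_nonneg_left a4 κ0.le
    have a8 := mul_le_mul_of_nonneg_left (show ∫ y, (B i).indicator (w j i) y ∂pw s Q ≤ κ / 4 by
      linarith) N1.le
    have a9 := mul_le_mul_of_nonneg_left (show 3 * κ / 4 ≤ ∫ y, w j i y ∂pw s Q by linarith) N1.le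
    have a10 := mul_le_mul_of_nonneg_left τ2 N1.le
    have a11 := mul_pos N1 κ0
    linarith [(c2 j i).1, (c3 j i).2]
  obtain ⟨j0, hj0⟩ := h3 Q hQ
  have t0 : ∀ p, |∑ b, u p (fun i => (z b i).1) - N * (R j0).real (Y p)| ≤ N * (2 * τ) := fun p => by
    have a := c1 p.1 p.2
    rw [eu] at a
    have b := mul_le_mul_of_nonneg_left (hj0 _ (mY p)) N1.le
    have c := mul_le_mul_of_nonneg_left (hj0.symm _ (mY p)) N1.le
    exact abs_le.mpr ⟨by linarith [a.1], by linarith [a.2]⟩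
  have ex : ∃ g, T N z g := ⟨f, j0, t0, ok j0 fun A hA => by linarith [hj0 A hA]⟩
  obtain ⟨j, t1, t2⟩ := ex.choose_spec
  rw [dif_pos ex] at hx
  set g := ex.choose
  have q : Le Q (R j) (5 * τ) := fun A hA => by
    have a := (abs_le.mp (t0 (j0, j))).1
    have b := (abs_le.mp (t1 (j0, j))).2
    have c : (R j0).real (Y (j0, j)) ≤ (R j).real (Y (j0, j)) + 4 * τ :=
      le_of_mul_le_mul_left (by linarith) N1
    have e1 := ENNReal.toReal_mono (measure_ne_top _ _)
      (Y1 (j0, j) _ ((mY (j0, j)).diff hA) sdiff_subset)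
    have e2 := ENNReal.toReal_mono (measure_ne_top _ _)
      (Y2 (j0, j) _ (hA.diff (mY (j0, j))) fun _ h => h.2)
    have e3 := fun j' => measureReal_inter_add_sdiff (μ := R j') (s := A) (mY (j0, j))
    have e4 := fun j' => measureReal_inter_add_sdiff (μ := R j') (s := Y (j0, j)) hA
    simp only [← measureReal_def] at e1 e2
    simp only [inter_comm (Y _)] at e4
    linarith [hj0 A hA, e3 j, e3 j0, e4 j, e4 j0]
  have mf := hF _ f.2
  have mg := hF _ g.2
  have r := w4 j _ (b01 mf mg) fun i hi => by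
    by_contra c
    have a : ∑ b, w j i (fun i => (z b i).1) ≤ ∑ b, ((if δ < d (P i) f (A s (z b)) then
        w j i fun i => (z b i).1 else 0) + if δ < d (P i) g (A s (z b)) then
        w j i fun i => (z b i).1 else 0) := Finset.sum_le_sum fun b _ => by
      have := ((w1 j i).2 fun i => (z b i).1).1
      have := tri (P i) mf mg (hF _ (A s (z b)).2)
      split_ifs <;> first | linarith | exact absurd (by unfold d at *; linarith) c
    rw [Finset.sum_add_distrib] at a
    linarith [ok j q i hi, t2 i hi]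
  have := tv1 q (b01 mf mg)
  unfold d at hx
  linarith

theorem result (Fam : Set (Measure X)) (hp : ∀ P ∈ Fam, IsProbabilityMeasure P) (h : TotBdd Fam)
    (F : Set (X → I)) (hF : ∀ f ∈ F, Measurable f) (H : PAC Fam F) :
    PAC (cl Fam) F ∧ PAC (hull Fam) F ∧ PAC (cl (hull Fam)) F := by
  have mono : ∀ S T : Set (Measure X), S ⊆ T → PAC T F → PAC S F := fun S T hS ⟨A, k⟩ =>
    ⟨A, fun ε hε => tendsto_of_tendsto_of_tendsto_of_le_of_le tendsto_const_nhds (k ε hε)
      (fun _ => zero_le) fun m => biSup_mono hS⟩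
  suffices k : PAC (cl (hull Fam)) F by
    refine ⟨mono _ (cl (hull Fam)) (fun Q hQ => ⟨hQ.1, fun ε hε => (hQ.2 ε hε).imp fun P hP =>
      ⟨⟨1, 1, fun _ => P, fun _ => hP.1, by simp, by simp⟩, hP.2⟩⟩) k, mono _ (cl (hull Fam))
      (fun Q hQ => ⟨?_, fun ε hε => ⟨Q, hQ, fun A _ => by simpa using hε.le⟩⟩) k, k⟩
    obtain ⟨l, c, P, h1, h2, rfl⟩ := hQ
    have := fun i => hp _ (h1 i)
    exact ⟨by simp [Measure.finsetSum_apply, ← ENNReal.ofNNReal_finsetSum, h2]⟩
  choose A hA using fun t : ℕ => stage hp h hF H (1 / (t + 1)) (by positivity)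
    (div_le_one_of_le₀ (by simp) zero_le)
  choose n hn using fun t => eventually_atTop.mp (hA t)
  refine ⟨fun m => A (Nat.findGreatest (fun t => n t ≤ m) m) m, fun ε hε =>
    ENNReal.tendsto_nhds_zero.mpr fun γ hγ => ?_⟩
  have lim := tendsto_one_div_add_atTop_nhds_zero_nat (𝕜 := ℝ)
  obtain ⟨t, ht⟩ := eventually_atTop.mp ((lim.eventually_lt_const (show 0 < ε / 6 by positivity)).and
    ((ENNReal.tendsto_ofReal lim).eventually_le_const (show ENNReal.ofReal 0 < γ by simpa)))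
  filter_upwards [eventually_ge_atTop t, eventually_ge_atTop (n t)] with m h1 h2
  obtain ⟨a, b⟩ := ht _ (Nat.le_findGreatest (P := fun t => n t ≤ m) h1 h2)
  refine iSup₂_le fun Q hQ => iSup_le fun f => le_trans (measure_mono fun x hx => ?_)
    ((hn _ m (Nat.findGreatest_spec (P := fun t => n t ≤ m) h1 h2) Q hQ f).trans (by simpa using b))
  refine lt_trans ?_ (mem_ofPred_eq ▸ hx :)
  push_cast; linarith

end Pool.Agent.Results.MP_ab635e_lc.Hull
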